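import Pool.Agent.ABCP.Stmts

set_option autoImplicit false

namespace Pool.Agent.ABCP.H82

open Matrix

/-- EXT -/
theorem ext (hS : SQRStmt) : EXTStmt := by
  intro p hp K Q B _ _ _ _ _ _ S P h v hP hv
  have b := Module.finBasis K P
  have hli : LinearIndependent K (fun i => (b i : Q)) := by
    have := b.linearIndependent.map' P.subtype (Submodule.ker_subtype P)
    exact this
  have hr : Submodule.span K (Set.range fun i => (b i : Q)) = P := by
    have h1 := congrArg (Submodule.map P.subtype) b.span_eq
    rw [Submodule.map_span, Submodule.map_top, Submodule.range_subtype, ← Set.range_comp] at h1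
    exact h1
  have hli2 : LinearIndependent K
      (Fin.snoc (fun i => (b i : Q)) h : Fin (Module.finrank K P + 1) → Q) := by
    rw [linearIndependent_finSnoc, hr]
    exact ⟨hli, hP⟩
  have hsp : Submodule.span K (Set.range
      (Fin.snoc (fun i => (b i : Q)) h : Fin (Module.finrank K P + 1) → Q)) =
      P ⊔ Submodule.span K {h} := by
    rw [Fin.range_snoc, Submodule.span_insert, hr, sup_comm]
  let b' : Module.Basis (Fin (Module.finrank K P + 1)) K (P ⊔ Submodule.span K {h} : Submodule K Q) :=
    (Module.Basis.span hli2).map (LinearEquiv.ofEq _ _ hsp)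
  have hb' : ∀ i, (b' i : Q) =
      (Fin.snoc (fun i => (b i : Q)) h : Fin (Module.finrank K P + 1) → Q) i := by
    intro i
    show ((((Module.Basis.span hli2).map (LinearEquiv.ofEq _ _ hsp)) i : (P ⊔ Submodule.span K {h} :
      Submodule K Q)) : Q) = _
    rw [Module.Basis.map_apply, LinearEquiv.coe_ofEq_apply, Module.Basis.span_apply]
  refine hS p K Q B S (P ⊔ Submodule.span K {h}) (Module.finrank K P + 1) b' v ?_
  rw [List.ofFn_succ', List.concat_eq_append, List.prod_append, List.prod_singleton]
  have e1 : S.act (b' (Fin.last (Module.finrank K P)) : Q) = S.act h := by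
    rw [hb', Fin.snoc_last]
  have e2 : ∀ i : Fin (Module.finrank K P), S.act (b' i.castSucc : Q) = S.act (b i : Q) := by
    intro i
    rw [hb', Fin.snoc_castSucc]
  rw [e1]
  simp only [e2]
  rw [← Matrix.mulVec_mulVec]
  have h2 := hv ((List.ofFn fun i : Fin (Module.finrank K P) =>
    List.replicate (p - 1) (b i : Q)).flatten) ?_ ?_
  · rw [List.map_flatten, List.prod_flatten, List.map_ofFn, List.map_ofFn] at h2
    have e3 : (List.ofFn (List.prod ∘ (List.map fun x => S.act x) ∘
        fun i : Fin (Module.finrank K P) => List.replicate (p - 1) (b i : Q))) =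
        List.ofFn fun i : Fin (Module.finrank K P) => S.act (b i : Q) ^ (p - 1) := by
      congr 1
      funext i
      simp only [Function.comp, List.map_replicate, List.prod_replicate]
    rw [e3] at h2
    exact h2
  · intro x hx
    rw [List.mem_flatten] at hx
    obtain ⟨l, hl, hxl⟩ := hx
    rw [List.mem_ofFn] at hl
    obtain ⟨i, rfl⟩ := hl
    rw [List.eq_of_mem_replicate hxl]
    exact (b i).2
  · rw [List.length_flatten, List.map_ofFn, List.sum_ofFn]
    simp only [Function.comp, List.length_replicate, Finset.sum_const, Finset.card_univ,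
      Fintype.card_fin, smul_eq_mul]
    exact mul_comm _ _

end Pool.Agent.ABCP.H82
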