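import Pool.Agent.ABCP.Stmts

set_option autoImplicit false

namespace Pool.Agent.ABCP.H82

open Matrix

section

variable {R : Type} [Ring R] {n : ℕ} (A : Fin n → R) (hA : ∀ i j, A i * A j = A j * A i)

include hA in
theorem prod_perm {m m' : List (Fin n)} (h : m.Perm m') : (m.map A).prod = (m'.map A).prod :=
  (h.map A).prod_eq' (List.pairwise_map.2 (List.pairwise_of_forall fun x y => hA x y))

include hA in
theorem prod_count_p {p : ℕ} (h3 : ∀ i, A i ^ p = 0) (m : List (Fin n)) (i : Fin n)
    (hi : p ≤ m.count i) : (m.map A).prod = 0 := by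
  have h1 : (List.replicate p i).Sublist m := List.replicate_sublist_iff.2 hi
  obtain ⟨l, hl⟩ := h1.exists_perm_append
  rw [prod_perm A hA hl, List.map_append, List.map_replicate, List.prod_append,
    List.prod_replicate, h3, zero_mul]

theorem sum_count (m : List (Fin n)) : ∑ i, m.count i = m.length := by
  have := Multiset.sum_count_eq_card (s := (Finset.univ : Finset (Fin n))) (m := (m : Multiset (Fin n)))
    (by intro a _; exact Finset.mem_univ a)
  simpa using this

include hA in
theorem prod_len_zero {p : ℕ} (hp : 1 ≤ p) (h3 : ∀ i, A i ^ p = 0) (m : List (Fin n))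
    (hm : m.length = (p - 1) * n + 1) : (m.map A).prod = 0 := by
  by_cases h : ∃ i, p ≤ m.count i
  · obtain ⟨i, hi⟩ := h
    exact prod_count_p A hA h3 m i hi
  · exfalso
    push Not at h
    have hle : ∑ i, m.count i ≤ ∑ _i : Fin n, (p - 1) :=
      Finset.sum_le_sum fun i _ => by have := h i; omega
    rw [sum_count, hm] at hle
    simp only [Finset.sum_const, Finset.card_univ, Fintype.card_fin, smul_eq_mul] at hle
    rw [mul_comm n] at hle
    omega

end

/-- NIL -/
theorem nil : NILStmt := by
  intro p hp K Q B _ _ _ _ _ _ S P l hl hlen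
  have hp1 : 1 ≤ p := (Fact.out : p.Prime).one_le
  have b := Module.finBasis K P
  have hA : ∀ i j, S.act (b i : Q) * S.act (b j : Q) = S.act (b j : Q) * S.act (b i : Q) :=
    fun i j => S.comm _ _
  have h3 : ∀ i, S.act (b i : Q) ^ p = 0 := fun i => S.pw _
  have hspan : ∀ l : List Q, (∀ x ∈ l, x ∈ P) → (l.map (fun p => S.act p)).prod ∈
      Submodule.span K {M : Matrix B B K | ∃ m : List (Fin (Module.finrank K P)),
        m.length = l.length ∧ M = (m.map (fun i => S.act (b i : Q))).prod} := by
    intro l
    induction l with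
    | nil => exact fun _ => Submodule.subset_span ⟨[], rfl, rfl⟩
    | cons x l ih =>
      intro hx
      have ih' := ih fun y hy => hx y (List.mem_cons_of_mem _ hy)
      have hxP : x ∈ P := hx x List.mem_cons_self
      rw [List.map_cons, List.prod_cons]
      have hp : S.act x = ∑ i, b.repr ⟨x, hxP⟩ i • S.act (b i : Q) := by
        have h1 : x = ∑ i, b.repr ⟨x, hxP⟩ i • (b i : Q) := by
          have h2 := congrArg (Submodule.subtype P) (b.sum_repr ⟨x, hxP⟩)
          rw [map_sum] at h2
          simp only [map_smul, Submodule.subtype_apply] at h2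
          exact h2.symm
        conv_lhs => rw [h1]
        rw [map_sum]
        simp only [map_smul]
      rw [hp, Finset.sum_mul]
      refine Submodule.sum_mem _ fun i _ => ?_
      rw [Matrix.smul_mul]
      refine Submodule.smul_mem _ _ ?_
      refine Submodule.span_induction (p := fun y _ => S.act (b i : Q) * y ∈
        Submodule.span K {M : Matrix B B K | ∃ m : List (Fin (Module.finrank K P)),
        m.length = (x :: l).length ∧ M = (m.map (fun i => S.act (b i : Q))).prod}) ?_ ?_ ?_ ?_ ih'
      · rintro y ⟨m, hm, rfl⟩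
        exact Submodule.subset_span ⟨i :: m, by simp [hm], by simp⟩
      · rw [mul_zero]; exact Submodule.zero_mem _
      · intro y z _ _ hy hz
        rw [mul_add]; exact Submodule.add_mem _ hy hz
      · intro a y _ hy
        rw [Matrix.mul_smul]; exact Submodule.smul_mem _ _ hy
  refine Submodule.span_induction (p := fun x _ => x = 0) ?_ ?_ ?_ ?_ (hspan l hl)
  · rintro x ⟨m, hm, rfl⟩
    exact prod_len_zero (fun i => S.act (b i : Q)) hA hp1 h3 m (hm.trans hlen)
  · rfl
  · intro x y _ _ hx hy
    rw [hx, hy, add_zero]
  · intro a x _ hx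
    rw [hx, smul_zero]

end Pool.Agent.ABCP.H82
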